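import Pool.Agent.Lib.MP_009fd8_ag.Def

/-!
MP_009fd8_ag, AllTwists: the place 2 for even n, and the real places where n is negative.
-/

namespace Pool.Agent.MP009fd8W

open Pool.Agent.MP009fd8

/-- The computation at the place 2 in a local domain whose nonunits are the multiples of 2, for
n = 2 m: a is a square modulo 4. -/
theorem ring_pair_even {O : Type*} [CommRing O] [IsDomain O] (h20 : (2 : O) ≠ 0)
    (h2u : ¬ IsUnit (2 : O)) (hloc : ∀ x : O, IsUnit x ∨ 2 ∣ x)
    (m a b X Y Z W : O) (ha : IsUnit a) (hb : IsUnit b) (hm : IsUnit m)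
    (hprim : ¬ (2 ∣ X ∧ 2 ∣ Y ∧ 2 ∣ Z ∧ 2 ∣ W))
    (h1 : b * Y ^ 2 = a * X ^ 2 - 2 * m * W ^ 2)
    (h3 : a * b * Z ^ 2 = a * X ^ 2 + 2 * m * W ^ 2) :
    ∃ g : O, IsUnit g ∧ 4 ∣ a - g ^ 2 := by
  have nd : ∀ x : O, IsUnit x → ¬ 2 ∣ x := fun x hx h => h2u (isUnit_of_dvd_unit h hx)
  have sq : ∀ x : O, 2 ∣ x ^ 2 → 2 ∣ x := by
    intro x hx
    rcases hloc x with h | h
    · exact absurd hx (nd _ (h.pow 2))
    · exact h
  have hX : IsUnit X := by
    rcases hloc X with h | ⟨x, hx⟩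
    · exact h
    · exfalso
      have hY : 2 ∣ Y := by
        apply sq
        apply (hb.dvd_mul_left).1
        exact ⟨2 * a * x ^ 2 - m * W ^ 2, by rw [h1, hx]; ring⟩
      have hZ : 2 ∣ Z := by
        apply sq
        apply ((ha.mul hb).dvd_mul_left).1
        exact ⟨2 * a * x ^ 2 + m * W ^ 2, by rw [h3, hx]; ring⟩
      have hW : 2 ∣ W := by
        apply sq
        apply (hm.dvd_mul_left).1
        obtain ⟨y, hy⟩ := hY
        refine ⟨a * x ^ 2 - b * y ^ 2, ?_⟩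
        apply mul_left_cancel₀ h20
        rw [hx, hy] at h1
        linear_combination h1
      exact hprim ⟨⟨x, hx⟩, hY, hZ, hW⟩
  have hY : IsUnit Y := by
    rcases hloc Y with h | ⟨y, hy⟩
    · exact h
    · exfalso
      refine nd _ (ha.mul (hX.pow 2)) ⟨b * (2 * y ^ 2) + m * W ^ 2, ?_⟩
      rw [hy] at h1
      linear_combination -h1
  have hZ : IsUnit Z := by
    rcases hloc Z with h | ⟨z, hz⟩
    · exact h
    · exfalso
      refine nd _ (ha.mul (hX.pow 2)) ⟨a * b * (2 * z ^ 2) - m * W ^ 2, ?_⟩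
      rw [hz] at h3
      linear_combination -h3
  obtain ⟨Z', hZ'⟩ := hZ.exists_right_inv
  have hZ'u : IsUnit Z' := IsUnit.of_mul_eq_one Z (by rw [mul_comm]; exact hZ')
  refine ⟨Y * Z', hY.mul hZ'u, ?_⟩
  have hZZ : Z ^ 2 * Z' ^ 2 = 1 := by rw [← mul_pow, hZ', one_pow]
  -- b (a Z^2 - Y^2) = 4 m W^2
  have h5 : b * (a * Z ^ 2 - Y ^ 2) = 4 * (m * W ^ 2) := by linear_combination h3 - h1
  have h6 : 4 ∣ a * Z ^ 2 - Y ^ 2 := (hb.dvd_mul_left).1 ⟨_, h5⟩
  obtain ⟨k, hk⟩ := h6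
  exact ⟨k * Z' ^ 2, by linear_combination Z' ^ 2 * hk - a * hZZ⟩

variable {F : Type*} [Field F] {Γ : Type*} [LinearOrderedCommGroupWithZero Γ]

private theorem exists_max_val (v : Valuation F Γ) (X Y Z W : F)
    (h : X ≠ 0 ∨ Y ≠ 0 ∨ Z ≠ 0 ∨ W ≠ 0) :
    ∃ M : F, M ≠ 0 ∧ (M = X ∨ M = Y ∨ M = Z ∨ M = W) ∧ v X ≤ v M ∧ v Y ≤ v M ∧ v Z ≤ v M ∧
      v W ≤ v M := by
  classical
  obtain ⟨M, hM, hmax⟩ := Finset.exists_max_image ({X, Y, Z, W} : Finset F) v ⟨X, by simp⟩
  have hX : v X ≤ v M := hmax X (by simp)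
  have hY : v Y ≤ v M := hmax Y (by simp)
  have hZ : v Z ≤ v M := hmax Z (by simp)
  have hW : v W ≤ v M := hmax W (by simp)
  refine ⟨M, ?_, by simpa using hM, hX, hY, hZ, hW⟩
  rintro rfl
  rw [map_zero, le_zero_iff, Valuation.zero_iff] at hX hY hZ hW
  rcases h with h | h | h | h
  · exact h hX
  · exact h hY
  · exact h hZ
  · exact h hW

/-- At the place 2, unramified, for n = 2 m, a, b and m units: if C_(a,b) has a point then a is a
square modulo 4. -/
theorem pair_even_at_two (v : Valuation F Γ) (m a b : F) (h2 : v 2 < 1) (h20 : (2 : F) ≠ 0)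
    (hmax : ∀ x : F, v x < 1 → v x ≤ v 2)
    (hm : v m = 1) (ha : v a = 1) (hb : v b = 1) (h : HasPoint (2 * m) a b) :
    ∃ g : F, v g = 1 ∧ v (a - g ^ 2) ≤ v 4 := by
  have hv2 : v 2 ≠ 0 := (Valuation.ne_zero_iff v).2 h20
  obtain ⟨X, Y, Z, W, hne', h1, h3⟩ := h
  obtain ⟨M, hM0, hM, hX, hY, hZ, hW⟩ := exists_max_val v X Y Z W hne'
  have hvM : 0 < v M := zero_lt_iff.2 ((Valuation.ne_zero_iff v).2 hM0)
  have hdiv : ∀ x : F, v x ≤ v M → v (x / M) ≤ 1 := by
    intro x hx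
    rw [map_div₀]
    exact (div_le_one₀ hvM).2 hx
  have unit_of : ∀ x : v.integer, v (x : F) = 1 → IsUnit x := by
    intro x hx
    have hx0 : (x : F) ≠ 0 := by
      intro h0
      rw [h0, map_zero] at hx
      exact zero_ne_one hx
    refine IsUnit.of_mul_eq_one (⟨(x : F)⁻¹, ?_⟩ : v.integer) ?_
    · rw [Valuation.mem_integer_iff, map_inv₀, hx, inv_one]
    · apply Subtype.ext
      simp [hx0]
  have val_of_unit : ∀ x : v.integer, IsUnit x → v (x : F) = 1 := by
    intro x hx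
    obtain ⟨y, hy⟩ := hx.exists_right_inv
    have e1 : v (x : F) * v (y : F) = 1 := by
      rw [← map_mul]
      have := congrArg (fun t : v.integer => v (t : F)) hy
      simpa using this
    apply le_antisymm x.2
    by_contra hlt
    rw [not_le] at hlt
    have : v (x : F) * v (y : F) < 1 := by
      calc v (x : F) * v (y : F) ≤ v (x : F) * 1 := by
            exact mul_le_mul_right y.2 _
        _ < 1 := by rw [mul_one]; exact hlt
    exact (ne_of_lt this) e1
  have two_dvd : ∀ x : v.integer, v (x : F) < 1 → 2 ∣ x := by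
    intro x hx
    refine ⟨⟨(x : F) / 2, ?_⟩, ?_⟩
    · rw [Valuation.mem_integer_iff, map_div₀]
      exact (div_le_one₀ (zero_lt_iff.2 hv2)).2 (hmax _ hx)
    · apply Subtype.ext
      simp only [Subring.coe_mul]
      rw [show ((2 : v.integer) : F) = 2 from rfl]
      field_simp
  have lt_of_dvd : ∀ x : v.integer, 2 ∣ x → v (x : F) < 1 := by
    rintro x ⟨t, rfl⟩
    simp only [Subring.coe_mul, map_mul]
    rw [show ((2 : v.integer) : F) = 2 from rfl]
    calc v 2 * v (t : F) ≤ v 2 * 1 := mul_le_mul_right t.2 _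
      _ < 1 := by rw [mul_one]; exact h2
  have le4_of_dvd : ∀ x : v.integer, 4 ∣ x → v (x : F) ≤ v 4 := by
    rintro x ⟨t, rfl⟩
    simp only [Subring.coe_mul, map_mul]
    rw [show ((4 : v.integer) : F) = 4 from rfl]
    calc v 4 * v (t : F) ≤ v 4 * 1 := mul_le_mul_right t.2 _
      _ = v 4 := mul_one _
  have key := ring_pair_even (O := v.integer)
    (fun h => h20 (congrArg (fun t : v.integer => (t : F)) h))
    (fun h => by
      have := val_of_unit _ h
      rw [show ((2 : v.integer) : F) = 2 from rfl] at this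
      exact (ne_of_lt h2) this)
    (fun x => by
      rcases lt_or_eq_of_le x.2 with hx | hx
      · exact Or.inr (two_dvd x hx)
      · exact Or.inl (unit_of x hx))
    ⟨m, hm.le⟩ ⟨a, ha.le⟩ ⟨b, hb.le⟩
    ⟨X / M, hdiv X hX⟩ ⟨Y / M, hdiv Y hY⟩ ⟨Z / M, hdiv Z hZ⟩ ⟨W / M, hdiv W hW⟩
    (unit_of _ ha) (unit_of _ hb) (unit_of _ hm)
    (by
      rintro ⟨d1, d2, d3, d4⟩
      have l1 : v (X / M) < 1 := lt_of_dvd _ d1
      have l2 : v (Y / M) < 1 := lt_of_dvd _ d2
      have l3 : v (Z / M) < 1 := lt_of_dvd _ d3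
      have l4 : v (W / M) < 1 := lt_of_dvd _ d4
      have hMM : v (M / M) = 1 := by rw [div_self hM0, map_one]
      rcases hM with hM | hM | hM | hM
      · rw [← hM] at l1; exact (ne_of_lt l1) hMM
      · rw [← hM] at l2; exact (ne_of_lt l2) hMM
      · rw [← hM] at l3; exact (ne_of_lt l3) hMM
      · rw [← hM] at l4; exact (ne_of_lt l4) hMM)
    (by
      apply Subtype.ext
      simp only [Subring.coe_mul, AddSubgroupClass.coe_sub, Subring.coe_pow]
      rw [show ((2 : v.integer) : F) = 2 from rfl]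
      field_simp
      linear_combination h1)
    (by
      apply Subtype.ext
      simp only [Subring.coe_mul, Subring.coe_add, Subring.coe_pow]
      rw [show ((2 : v.integer) : F) = 2 from rfl]
      field_simp
      linear_combination h3)
  obtain ⟨g, hg, hag⟩ := key
  refine ⟨(g : F), val_of_unit g hg, ?_⟩
  have := le4_of_dvd _ hag
  simpa only [AddSubgroupClass.coe_sub, Subring.coe_pow] using this

/-- Over the reals, with n negative: if C_(a,b) has a point then b is positive. -/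
theorem real_neg (n a b : ℝ) (hn : n < 0) (ha : a ≠ 0) (hb : b ≠ 0) (h : HasPoint n a b) :
    0 < b := by
  obtain ⟨X, Y, Z, W, hne, h1, h2⟩ := h
  by_contra hb'
  have hbn : b < 0 := lt_of_le_of_ne (not_lt.mp hb') hb
  have hX2 := sq_nonneg X
  have hY2 := sq_nonneg Y
  have hZ2 := sq_nonneg Z
  have hW2 := sq_nonneg W
  have hXW : X ^ 2 = 0 ∧ W ^ 2 = 0 := by
    rcases lt_or_gt_of_ne ha with han | hap
    · have hab : 0 < a * b := mul_pos_of_neg_of_neg han hbn
      have e1 : 0 ≤ a * b * Z ^ 2 := mul_nonneg hab.le hZ2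
      have e2 : a * X ^ 2 ≤ 0 := mul_nonpos_of_nonpos_of_nonneg han.le hX2
      have e3 : n * W ^ 2 ≤ 0 := mul_nonpos_of_nonpos_of_nonneg hn.le hW2
      have e4 : a * X ^ 2 = 0 := by linarith
      have e5 : n * W ^ 2 = 0 := by linarith
      exact ⟨(mul_eq_zero.mp e4).resolve_left ha, (mul_eq_zero.mp e5).resolve_left hn.ne⟩
    · have e1 : b * Y ^ 2 ≤ 0 := mul_nonpos_of_nonpos_of_nonneg hbn.le hY2
      have e2 : 0 ≤ a * X ^ 2 := mul_nonneg hap.le hX2
      have e3 : n * W ^ 2 ≤ 0 := mul_nonpos_of_nonpos_of_nonneg hn.le hW2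
      have e4 : a * X ^ 2 = 0 := by linarith
      have e5 : n * W ^ 2 = 0 := by linarith
      exact ⟨(mul_eq_zero.mp e4).resolve_left ha, (mul_eq_zero.mp e5).resolve_left hn.ne⟩
  obtain ⟨hX0, hW0⟩ := hXW
  have hY0 : Y ^ 2 = 0 := by
    have : b * Y ^ 2 = 0 := by rw [h1, hX0, hW0]; ring
    exact (mul_eq_zero.mp this).resolve_left hb
  have hZ0 : Z ^ 2 = 0 := by
    have : a * b * Z ^ 2 = 0 := by rw [h2, hX0, hW0]; ring
    exact (mul_eq_zero.mp this).resolve_left (mul_ne_zero ha hb)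
  have e1 := pow_eq_zero_iff (two_ne_zero) |>.mp hX0
  have e2 := pow_eq_zero_iff (two_ne_zero) |>.mp hY0
  have e3 := pow_eq_zero_iff (two_ne_zero) |>.mp hZ0
  have e4 := pow_eq_zero_iff (two_ne_zero) |>.mp hW0
  simp [e1, e2, e3, e4] at hne

end Pool.Agent.MP009fd8W
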