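import Pool.Agent.Lib.MP_009fd8_agM.Def

/-!
MP_009fd8_ag, AllTwists: the residue conditions of the complete 2-descent on the quadratic twists
y^2 = x^3 - n^2 x of the curve y^2 = x^3 - x, n = 2^d u0 q_1 ... q_s.
-/

namespace Pool.Agent.MP009fd8W

open IsDedekindDomain NumberField Pool.Agent.MP009fd8M

variable {K : Type*} [Field K] [NumberField K] {ι : Type*} [Fintype ι] [DecidableEq ι]

/-- The conditions at the real places, at 2 and at the places p l on the pair (u q_A, w q_B), where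
q_A is the product of the q i over A, for n = 2^d u0 (product of all q i):
(1) at a real place where u0 is positive u w is positive, at the others w is positive;
(2) if d = 0, u q_A = g^2 (1 + 2 t^2) and w q_B = h^2 (1 + 2 (t^4 + (1 + e) t^2 + t)) modulo 4 with
g and h prime to 2; if d is not 0, u q_A = g^2 modulo 4 with g prime to 2, and t is 0;
(3) for every l, with s = -1 if l is in B and s = 1 otherwise, the elements
s (2^d u0)^[l in A] u (dual of A at l) and s (2^d u0)^[l in B] 2^[l in A] w (dual of B at l) are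
squares modulo p l. Here dual q l A is the product of the q i over A if l is not in A and over the
complement of A if l is in A. -/
def IsClass (p : ι → HeightOneSpectrum (𝓞 K)) (q : ι → 𝓞 K) (d : ℕ) (u0 : (𝓞 K)ˣ) (e : 𝓞 K)
    (A B : Finset ι) (u w : (𝓞 K)ˣ) (t : 𝓞 K) : Prop :=
  (∀ f : K →+* ℝ,
    (0 < f (algebraMap (𝓞 K) K (u0 : 𝓞 K)) →
      0 < f (algebraMap (𝓞 K) K (u : 𝓞 K)) * f (algebraMap (𝓞 K) K (w : 𝓞 K))) ∧
    (f (algebraMap (𝓞 K) K (u0 : 𝓞 K)) < 0 → 0 < f (algebraMap (𝓞 K) K (w : 𝓞 K)))) ∧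
  (d = 0 →
    (∃ g : 𝓞 K, ¬ 2 ∣ g ∧ 4 ∣ u * ∏ i ∈ A, q i - g ^ 2 * (1 + 2 * t ^ 2)) ∧
    (∃ h : 𝓞 K, ¬ 2 ∣ h ∧
      4 ∣ w * ∏ i ∈ B, q i - h ^ 2 * (1 + 2 * (t ^ 4 + (1 + e) * t ^ 2 + t)))) ∧
  (d ≠ 0 → (∃ g : 𝓞 K, ¬ 2 ∣ g ∧ 4 ∣ u * ∏ i ∈ A, q i - g ^ 2) ∧ t = 0) ∧
  ∀ l : ι,
    (∃ m : 𝓞 K, (if l ∈ B then -1 else 1) * (if l ∈ A then 2 ^ d * (u0 : 𝓞 K) else 1) * u *
      dual q l A - m ^ 2 ∈ (p l).asIdeal) ∧
    (∃ m : 𝓞 K, (if l ∈ B then -1 else 1) * (if l ∈ B then 2 ^ d * (u0 : 𝓞 K) else 1) *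
      (if l ∈ A then 2 else 1) * w * dual q l B - m ^ 2 ∈ (p l).asIdeal)

/-- The set of the classes (A, B, t modulo 2) for which some units u, w satisfy the conditions. -/
def classes (p : ι → HeightOneSpectrum (𝓞 K)) (q : ι → 𝓞 K) (d : ℕ) (u0 : (𝓞 K)ˣ) (e : 𝓞 K) :
    Set (Finset ι × Finset ι × (𝓞 K ⧸ Ideal.span {(2 : 𝓞 K)})) :=
  {z | ∃ (u w : (𝓞 K)ˣ) (t : 𝓞 K), Ideal.Quotient.mk _ t = z.2.2 ∧
    IsClass p q d u0 e z.1 z.2.1 u w t}

end Pool.Agent.MP009fd8W
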