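import Pool.Agent.Lib.MP_009fd8_ag.Places
import Pool.Agent.Lib.MP_009fd8_ag.ClassLemma

/-!
MP_009fd8_ag, AllTwists: generators of odd powers of prime ideals, and elements with even
valuations away from these prime ideals.
-/

namespace Pool.Agent.MP009fd8W

open IsDedekindDomain NumberField WithZero Pool.Agent.MP009fd8

variable {K : Type*} [Field K] [NumberField K]

/-- The valuation of a generator of the m-th power of a prime ideal. -/
theorem val_gen (p : HeightOneSpectrum (𝓞 K)) (m : ℕ) (q : 𝓞 K)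
    (hq : Ideal.span {q} = p.asIdeal ^ m) :
    p.valuation K (algebraMap (𝓞 K) K q) = exp (-(m : ℤ)) := by
  have hmem : q ∈ p.asIdeal ^ m := by
    rw [← hq]; exact Ideal.mem_span_singleton_self q
  have hnot : q ∉ p.asIdeal ^ (m + 1) := by
    intro h
    have hle : p.asIdeal ^ m ≤ p.asIdeal ^ (m + 1) := by
      rw [← hq, Ideal.span_singleton_le_iff_mem]; exact h
    have hlt : p.asIdeal ^ (m + 1) < p.asIdeal ^ m :=
      Ideal.pow_right_strictAnti p.asIdeal p.ne_bot p.isPrime.ne_top (Nat.lt_succ_self m)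
    exact absurd hle (not_le_of_gt hlt)
  have h1 : p.valuation K (algebraMap (𝓞 K) K q) ≤ exp (-(m : ℤ)) := by
    rw [HeightOneSpectrum.valuation_of_algebraMap, HeightOneSpectrum.intValuation_le_pow_iff_mem]
    exact hmem
  have h2 : ¬ p.valuation K (algebraMap (𝓞 K) K q) ≤ exp (-((m + 1 : ℕ) : ℤ)) := by
    rw [HeightOneSpectrum.valuation_of_algebraMap, HeightOneSpectrum.intValuation_le_pow_iff_mem]
    exact hnot
  have h0 : p.valuation K (algebraMap (𝓞 K) K q) ≠ 0 := by
    intro h0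
    apply h2
    rw [h0]
    exact zero_le
  obtain ⟨x, hx⟩ : ∃ x : WithZero (Multiplicative ℤ),
      x = p.valuation K (algebraMap (𝓞 K) K q) := ⟨_, rfl⟩
  rw [← hx] at h0 h1 h2 ⊢
  lift x to ℤ using h0 with k
  rw [exp_le_exp] at h1 h2
  rw [exp_inj]
  push_cast at h2
  omega

/-- A generator of a power of a prime ideal lies in no other prime ideal. -/
theorem notMem_gen {p w : HeightOneSpectrum (𝓞 K)} {m : ℕ} {q : 𝓞 K}
    (hq : Ideal.span {q} = p.asIdeal ^ m) (hw : w ≠ p) : q ∉ w.asIdeal := by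
  intro h
  have hle : p.asIdeal ^ m ≤ w.asIdeal := by
    rw [← hq, Ideal.span_singleton_le_iff_mem]; exact h
  have hle' : p.asIdeal ≤ w.asIdeal := w.isPrime.le_of_pow_le hle
  have heq := p.isMaximal.eq_of_le w.isPrime.ne_top hle'
  exact hw (HeightOneSpectrum.ext heq.symm)

theorem not_isSquare_exp_odd {m : ℕ} (hm : Odd m) :
    ¬ IsSquare (exp (-(m : ℤ)) : WithZero (Multiplicative ℤ)) := by
  rintro ⟨y, hy⟩
  have hy0 : y ≠ 0 := by
    rintro rfl
    simp at hy
  lift y to ℤ using hy0 with k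
  rw [← exp_add, exp_inj] at hy
  obtain ⟨j, hj⟩ := hm
  omega

theorem isSquare_mul_exp_odd {m : ℕ} (hm : Odd m) {x : WithZero (Multiplicative ℤ)}
    (hx0 : x ≠ 0) (hx : ¬ IsSquare x) : IsSquare (exp (-(m : ℤ)) * x) := by
  lift x to ℤ using hx0 with k
  obtain ⟨j, hj⟩ := hm
  rcases Int.even_or_odd k with ⟨i, hi⟩ | ⟨i, hi⟩
  · exact absurd ⟨exp i, by rw [hi, exp_add]⟩ hx
  · refine ⟨exp (i - j), ?_⟩
    rw [← exp_add, ← exp_add, hi, hj]
    congr 1
    push_cast
    ring

variable {ι : Type*} [DecidableEq ι]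

/-- Products of the generators at the other places. -/
theorem notMem_prod {p : ι → HeightOneSpectrum (𝓞 K)} {m : ι → ℕ} {q : ι → 𝓞 K}
    (hq : ∀ i, Ideal.span {q i} = (p i).asIdeal ^ m i) (w : HeightOneSpectrum (𝓞 K))
    (A : Finset ι) (hw : ∀ i ∈ A, w ≠ p i) : ∏ i ∈ A, q i ∉ w.asIdeal := by
  intro h
  obtain ⟨i, hiA, hi⟩ := (Ideal.IsPrime.prod_mem_iff (hp := w.isPrime)).mp h
  exact notMem_gen (hq i) (hw i hiA) hi

/-- Odd class number: an element whose valuations are even away from the p i is a unit times a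
product of some of the q i times a square. -/
theorem exists_unit_prod_sq (hclass : Odd (NumberField.classNumber K)) [Fintype ι]
    (p : ι → HeightOneSpectrum (𝓞 K)) (hp : Function.Injective p) (m : ι → ℕ)
    (hm : ∀ i, Odd (m i)) (q : ι → 𝓞 K)
    (hq : ∀ i, Ideal.span {q i} = (p i).asIdeal ^ m i) (z : K) (hz : z ≠ 0)
    (hv : ∀ v : HeightOneSpectrum (𝓞 K), (∀ i, v ≠ p i) → IsSquare (v.valuation K z)) :
    ∃ (A : Finset ι) (u : (𝓞 K)ˣ) (r : K), r ≠ 0 ∧
      z = algebraMap (𝓞 K) K ((u : 𝓞 K) * ∏ i ∈ A, q i) * r ^ 2 := by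
  classical
  obtain ⟨A, hA⟩ : ∃ A : Finset ι, ∀ i, i ∈ A ↔ ¬ IsSquare ((p i).valuation K z) :=
    ⟨Finset.univ.filter fun i => ¬ IsSquare ((p i).valuation K z), fun i => by simp⟩
  have hq0 : ∀ i, q i ≠ 0 := by
    intro i h0
    have h1 := hq i
    rw [h0, Ideal.span_singleton_eq_bot.mpr rfl] at h1
    exact (pow_ne_zero (m i) (p i).ne_bot) h1.symm
  have hP0 : algebraMap (𝓞 K) K (∏ i ∈ A, q i) ≠ 0 := by
    rw [Ne, map_eq_zero_iff _ (FaithfulSMul.algebraMap_injective (𝓞 K) K)]
    exact Finset.prod_ne_zero_iff.mpr fun i _ => hq0 i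
  obtain ⟨u, r, hr, hzr⟩ := exists_unit_mul_sq hclass (algebraMap (𝓞 K) K (∏ i ∈ A, q i) * z)
    (mul_ne_zero hP0 hz) (by
      intro v
      rw [map_mul]
      by_cases hvp : ∃ j, v = p j
      · obtain ⟨j, rfl⟩ := hvp
        by_cases hj : j ∈ A
        · rw [← Finset.mul_prod_erase A q hj, map_mul, map_mul, val_gen (p j) (m j) (q j) (hq j)]
          have h1 : (p j).valuation K (algebraMap (𝓞 K) K (∏ i ∈ A.erase j, q i)) = 1 := by
            apply val_eq_one
            refine notMem_prod hq _ _ ?_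
            intro i hi heq
            exact Finset.ne_of_mem_erase hi (hp heq).symm
          rw [h1, mul_one]
          exact isSquare_mul_exp_odd (hm j) ((Valuation.ne_zero_iff _).mpr hz) ((hA j).mp hj)
        · have h1 : (p j).valuation K (algebraMap (𝓞 K) K (∏ i ∈ A, q i)) = 1 := by
            apply val_eq_one
            refine notMem_prod hq _ _ ?_
            intro i hi heq
            exact hj ((hp heq) ▸ hi)
          rw [h1, one_mul]
          by_contra hcon
          exact hj ((hA j).mpr hcon)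
      · have hvp' : ∀ i, v ≠ p i := fun i h => hvp ⟨i, h⟩
        have h1 : v.valuation K (algebraMap (𝓞 K) K (∏ i ∈ A, q i)) = 1 := by
          apply val_eq_one
          exact notMem_prod hq _ _ fun i _ => hvp' i
        rw [h1, one_mul]
        exact hv v hvp')
  refine ⟨A, u, r / algebraMap (𝓞 K) K (∏ i ∈ A, q i), div_ne_zero hr hP0, ?_⟩
  rw [map_mul]
  field_simp
  linear_combination hzr

end Pool.Agent.MP009fd8W
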