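import Pool.Agent.Lib.MP_009fd8_agM.Glob
import Pool.Agent.Lib.MP_009fd8_agW.Ring2e

/-!
MP_009fd8_ag, AllTwists: from the completions to congruences in the ring of integers.
-/

namespace Pool.Agent.MP009fd8W

open IsDedekindDomain NumberField WithZero Pool.Agent.MP009fd8 Pool.Agent.MP009fd8M

variable {K : Type*} [Field K] [NumberField K]

/-- At a place of odd valuation of n and odd residue characteristic: if the covering of a pair of
integers prime to the place has a point, then both are squares modulo the place. -/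
theorem sq_mod_of_hasPoint (v : HeightOneSpectrum (𝓞 K)) (h2 : (2 : 𝓞 K) ∉ v.asIdeal) (n : K)
    (hn : ¬ IsSquare (v.valuation K n)) (D D' : 𝓞 K) (hD : D ∉ v.asIdeal)
    (hD' : D' ∉ v.asIdeal)
    (h : HasPoint (algebraMap K (v.adicCompletion K) n)
      (algebraMap K (v.adicCompletion K) (algebraMap (𝓞 K) K D))
      (algebraMap K (v.adicCompletion K) (algebraMap (𝓞 K) K D'))) :
    (∃ m : 𝓞 K, D - m ^ 2 ∈ v.asIdeal) ∧ ∃ m : 𝓞 K, D' - m ^ 2 ∈ v.asIdeal := by
  have h20 : (algebraMap (𝓞 K) K 2) = 2 := map_ofNat _ _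
  obtain ⟨⟨g, hg1, hg⟩, ⟨g', hg1', hg'⟩⟩ := squares_at_l
    (Valued.v : Valuation (v.adicCompletion K) _) _ _ _
    (val_int_eq_one hD) (val_int_eq_one hD')
    (by
      rw [← map_ofNat (algebraMap K (v.adicCompletion K)) 2, val_completion, ← h20]
      exact val_eq_one v h2)
    (by rw [val_completion]; exact hn) h
  exact ⟨exists_sq_mod hg1 hg, exists_sq_mod hg1' hg'⟩

/-- At the place 2, for n = 2 m: if the covering of a pair of odd integers has a point, then the
first one is a square modulo 4. -/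
theorem even_class_of_hasPoint (h2 : Prime (2 : 𝓞 K)) (m : 𝓞 K) (hm : ¬ 2 ∣ m)
    (D D' : 𝓞 K) (hD : ¬ 2 ∣ D) (hD' : ¬ 2 ∣ D')
    (h : HasPoint (algebraMap K ((placeOf 2 h2).adicCompletion K) (algebraMap (𝓞 K) K (2 * m)))
      (algebraMap K ((placeOf 2 h2).adicCompletion K) (algebraMap (𝓞 K) K D))
      (algebraMap K ((placeOf 2 h2).adicCompletion K) (algebraMap (𝓞 K) K D'))) :
    ∃ g : 𝓞 K, ¬ 2 ∣ g ∧ 4 ∣ D - g ^ 2 := by
  have h20 : (algebraMap (𝓞 K) K 2) = 2 := map_ofNat _ _
  obtain ⟨v, hvdef⟩ : ∃ v, v = placeOf 2 h2 := ⟨_, rfl⟩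
  rw [← hvdef] at h
  have hv2 : (Valued.v : Valuation (v.adicCompletion K) _) 2 = exp (-1 : ℤ) := by
    rw [← map_ofNat (algebraMap K (v.adicCompletion K)) 2, val_completion, ← h20, hvdef]
    exact val_self h2
  have hK20 : (2 : v.adicCompletion K) ≠ 0 := by
    rw [← map_ofNat (algebraMap K (v.adicCompletion K)) 2]
    exact (map_ne_zero _).mpr two_ne_zero
  have hK2lt : (Valued.v : Valuation (v.adicCompletion K) _) 2 < 1 := by
    rw [hv2, ← exp_zero, exp_lt_exp]; norm_num
  have hmaxv : ∀ x : v.adicCompletion K, Valued.v x < 1 →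
      Valued.v x ≤ (Valued.v : Valuation (v.adicCompletion K) _) 2 :=
    fun x hx => by rw [hv2]; exact le_of_lt_one hx
  have hmem : ∀ {r : 𝓞 K}, ¬ 2 ∣ r → r ∉ v.asIdeal := by
    intro r hr
    rw [hvdef, mem_placeOf]; exact hr
  rw [map_mul, map_mul, map_ofNat, map_ofNat] at h
  obtain ⟨G, hG1, hGD⟩ := pair_even_at_two
    (Valued.v : Valuation (v.adicCompletion K) _)
    (algebraMap K (v.adicCompletion K) (algebraMap (𝓞 K) K m))
    (algebraMap K (v.adicCompletion K) (algebraMap (𝓞 K) K D))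
    (algebraMap K (v.adicCompletion K) (algebraMap (𝓞 K) K D'))
    hK2lt hK20 hmaxv (val_int_eq_one (hmem hm)) (val_int_eq_one (hmem hD))
    (val_int_eq_one (hmem hD')) h
  have h40 : (0 : WithZero (Multiplicative ℤ)) <
      (Valued.v : Valuation (v.adicCompletion K) _) 4 := by
    have h4K : (4 : K) ≠ 0 := by norm_num
    have : (algebraMap K (v.adicCompletion K)) 4 ≠ 0 := (map_ne_zero _).mpr h4K
    rw [map_ofNat] at this
    exact zero_lt_iff.mpr ((Valuation.ne_zero_iff _).mpr this)
  have e5 : (4 : v.adicCompletion K) = 2 * 2 := by norm_num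
  have h4lt : (Valued.v : Valuation (v.adicCompletion K) _) 4 < 1 := by
    rw [e5, map_mul]
    calc _ ≤ (Valued.v : Valuation (v.adicCompletion K) _) 2 * 1 := by
          gcongr
      _ < 1 := by rw [mul_one]; exact hK2lt
  obtain ⟨g, hg⟩ := exists_int_sub_lt v G hG1.le _ h40
  obtain ⟨G', hG'def⟩ : ∃ M, M = algebraMap K (v.adicCompletion K) (algebraMap (𝓞 K) K g) :=
    ⟨_, rfl⟩
  have hG'1 : Valued.v G' ≤ 1 := by rw [hG'def]; exact val_int_le_one v g
  rw [← hG'def] at hg
  refine ⟨g, ?_, ?_⟩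
  · intro hdvd
    have h5 : Valued.v G' < 1 := by
      rw [hG'def, val_completion, v.valuation_lt_one_iff_mem, hvdef, mem_placeOf]
      exact hdvd
    have h6 : Valued.v G < 1 := by
      have : G = (G - G') + G' := by ring
      rw [this]
      exact Valuation.map_add_lt _ (lt_trans hg h4lt) h5
    exact (ne_of_lt h6) hG1
  · apply four_dvd_of_val h2
    rw [← hvdef, ← val_completion, ← val_completion]
    have e7 : algebraMap K (v.adicCompletion K) (algebraMap (𝓞 K) K (D - g ^ 2)) =
        (algebraMap K (v.adicCompletion K) (algebraMap (𝓞 K) K D) - G ^ 2) +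
        (G - G') * (G + G') := by
      simp only [map_sub, map_pow, ← hG'def]
      ring
    rw [e7, map_ofNat]
    refine Valuation.map_add_le _ hGD ?_
    rw [map_mul]
    calc _ ≤ Valued.v (G - G') * 1 := by
          gcongr
          exact Valuation.map_add_le _ hG1.le hG'1
      _ ≤ _ := by rw [mul_one]; exact hg.le

end Pool.Agent.MP009fd8W
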