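import Pool.Agent.Lib.MP_009fd8_ag.RealPlace
import Pool.Agent.Lib.MP_009fd8_ag.Away
import Pool.Agent.Lib.MP_009fd8_ag.MainC
import Pool.Agent.Lib.MP_009fd8_agM.Odd2
import Pool.Agent.Lib.MP_009fd8_agM.Main
import Pool.Agent.Lib.MP_009fd8_agW.Def
import Pool.Agent.Lib.MP_009fd8_agW.Fact
import Pool.Agent.Lib.MP_009fd8_agW.Glob

/-!
MP_009fd8_ag, AllTwists: the complete 2-descent on y^2 = x^3 - n^2 x for all n, assembly.
-/

namespace Pool.Agent.MP009fd8W

open IsDedekindDomain NumberField WithZero Pool.Agent.MP009fd8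
open Pool.Agent.MP009fd8M (dual val_int_eq_one class_of_hasPoint no_point_odd_pair
  neg_one_not_square)

section field

variable {F : Type*} [Field F] {ι : Type*} [Fintype ι] [DecidableEq ι]

/-- The four translates by 2-torsion points. -/
theorem hasPoint_dual (q : ι → F) (hq : ∀ i, q i ≠ 0) (ν : F) (hν : ν ≠ 0) (u w : F)
    (hu : u ≠ 0) (hw : w ≠ 0) (A B : Finset ι)
    (l : ι) (h : HasPoint (ν * ∏ i, q i) (u * ∏ i ∈ A, q i) (w * ∏ i ∈ B, q i)) :
    HasPoint (ν * ∏ i, q i)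
      ((if l ∈ B then -1 else 1) * (if l ∈ A then ν else 1) * u * dual q l A)
      ((if l ∈ B then -1 else 1) * (if l ∈ B then ν else 1) * (if l ∈ A then 2 else 1) * w *
        dual q l B) := by
  have hn : ν * ∏ i, q i ≠ 0 :=
    mul_ne_zero hν (Finset.prod_ne_zero_iff.mpr fun i _ => hq i)
  have hA : ∏ i ∈ A, q i ≠ 0 := Finset.prod_ne_zero_iff.mpr fun i _ => hq i
  have hB : ∏ i ∈ B, q i ≠ 0 := Finset.prod_ne_zero_iff.mpr fun i _ => hq i
  have hAc : (∏ i ∈ A, q i) * ∏ i ∈ Aᶜ, q i = ∏ i, q i := Finset.prod_mul_prod_compl A q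
  have hBc : (∏ i ∈ B, q i) * ∏ i ∈ Bᶜ, q i = ∏ i, q i := Finset.prod_mul_prod_compl B q
  unfold dual
  by_cases hlA : l ∈ A <;> by_cases hlB : l ∈ B
  · simp only [hlA, hlB, if_true]
    have h1 := hasPoint_translate_q _ _ _ hn (mul_ne_zero (neg_ne_zero.mpr hn)
      (mul_ne_zero hw hB)) (hasPoint_translate_zero _ _ _ hn (mul_ne_zero hu hA) h)
    refine hasPoint_sq _ _ _ _ _ hA hB ?_
    convert h1 using 1
    · rw [← hAc]; ring
    · rw [← hBc]; ring
  · simp only [hlA, hlB, if_true, if_false]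
    have h1 := hasPoint_translate_q _ _ _ hn (mul_ne_zero hw hB) h
    refine hasPoint_sq _ _ _ _ _ hA one_ne_zero ?_
    convert h1 using 1
    · rw [← hAc]; ring
    · ring
  · simp only [hlA, hlB, if_true, if_false]
    have h1 := hasPoint_translate_zero _ _ _ hn (mul_ne_zero hu hA) h
    refine hasPoint_sq _ _ _ _ _ one_ne_zero hB ?_
    convert h1 using 1
    · ring
    · rw [← hBc]; ring
  · simp only [hlA, hlB, if_false]
    convert h using 1 <;> ring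

/-- Undoing the translation by (0, 0). -/
theorem torsion_zero {n a b x y : F} (h20 : (2 : F) ≠ 0) (hn : n ≠ 0)
    (h : TorsionPair n (-a * x) (-n * b * y)) : TorsionPair n (a * x) (b * y) := by
  have hneg1 : TorsionPair n (-1) (-n) :=
    ⟨1, 1, one_ne_zero, one_ne_zero, Or.inr (Or.inl ⟨by ring, by ring⟩)⟩
  have h5 := hneg1.mul h20 hn h
  refine TorsionPair.of_mul_sq one_ne_zero hn ?_
  convert h5 using 1 <;> ring

/-- Undoing the translation by (n, 0). -/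
theorem torsion_n {n a b x y : F} (h20 : (2 : F) ≠ 0) (hn : n ≠ 0)
    (h : TorsionPair n (n * a * x) (2 * b * y)) : TorsionPair n (a * x) (b * y) := by
  have hn2 : TorsionPair n n 2 :=
    ⟨1, 1, one_ne_zero, one_ne_zero, Or.inr (Or.inr (Or.inl ⟨by ring, by ring⟩))⟩
  have h5 := hn2.mul h20 hn h
  refine TorsionPair.of_mul_sq hn h20 ?_
  convert h5 using 1 <;> ring

end field

variable {K : Type*} [Field K] [NumberField K] {ι : Type*} [Fintype ι] [DecidableEq ι]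

/-- The dual products are prime to p l. -/
theorem notMem_dual {p : ι → HeightOneSpectrum (𝓞 K)} (hp : Function.Injective p) {m : ι → ℕ}
    {q : ι → 𝓞 K} (hq : ∀ i, Ideal.span {q i} = (p i).asIdeal ^ m i) (l : ι) (A : Finset ι) :
    dual q l A ∉ (p l).asIdeal := by
  unfold dual
  apply notMem_prod hq
  intro i hi heq
  have hil : l = i := hp heq
  subst hil
  split_ifs at hi with h1
  · exact (Finset.mem_compl.mp hi) h1
  · exact h1 hi

/-- The residue conditions at p l. -/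
theorem residues {p : ι → HeightOneSpectrum (𝓞 K)} (hp : Function.Injective p) {m : ι → ℕ}
    {q : ι → 𝓞 K} (hq : ∀ i, Ideal.span {q i} = (p i).asIdeal ^ m i) (hq0 : ∀ i, q i ≠ 0)
    (l : ι) (hl2 : (2 : 𝓞 K) ∉ (p l).asIdeal) (d : ℕ) (u0 u w : (𝓞 K)ˣ) (A B : Finset ι)
    (hn : ¬ IsSquare ((p l).valuation K (algebraMap (𝓞 K) K (2 ^ d * (u0 : 𝓞 K) * ∏ i, q i))))
    (h : HasPoint (algebraMap K ((p l).adicCompletion K)
        (algebraMap (𝓞 K) K (2 ^ d * (u0 : 𝓞 K) * ∏ i, q i)))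
      (algebraMap K ((p l).adicCompletion K)
        (algebraMap (𝓞 K) K ((u : 𝓞 K) * ∏ i ∈ A, q i)))
      (algebraMap K ((p l).adicCompletion K)
        (algebraMap (𝓞 K) K ((w : 𝓞 K) * ∏ i ∈ B, q i)))) :
    (∃ m : 𝓞 K, (if l ∈ B then -1 else 1) * (if l ∈ A then 2 ^ d * (u0 : 𝓞 K) else 1) * u *
      dual q l A - m ^ 2 ∈ (p l).asIdeal) ∧
    (∃ m : 𝓞 K, (if l ∈ B then -1 else 1) * (if l ∈ B then 2 ^ d * (u0 : 𝓞 K) else 1) *
      (if l ∈ A then 2 else 1) * w * dual q l B - m ^ 2 ∈ (p l).asIdeal) := by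
  obtain ⟨φ, hφ⟩ : ∃ φ : 𝓞 K →+* (p l).adicCompletion K,
      φ = (algebraMap K ((p l).adicCompletion K)).comp (algebraMap (𝓞 K) K) :=
    ⟨_, rfl⟩
  have hφinj : Function.Injective φ := by
    rw [hφ, RingHom.coe_comp]
    exact (algebraMap K _).injective.comp (FaithfulSMul.algebraMap_injective (𝓞 K) K)
  have hφ' : ∀ x : 𝓞 K, algebraMap K ((p l).adicCompletion K)
      (algebraMap (𝓞 K) K x) = φ x := by
    intro x; rw [hφ]; rfl
  have hφ0 : ∀ x : 𝓞 K, x ≠ 0 → φ x ≠ 0 := fun x hx => by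
    rw [Ne, map_eq_zero_iff φ hφinj]; exact hx
  have hdual : ∀ C : Finset ι, dual (fun i => φ (q i)) l C = φ (dual q l C) := by
    intro C
    unfold dual
    rw [map_prod]
  have hν0 : (2 ^ d * (u0 : 𝓞 K)) ≠ 0 := mul_ne_zero (pow_ne_zero d two_ne_zero) u0.ne_zero
  have h1 := hasPoint_dual (fun i => φ (q i)) (fun i => hφ0 _ (hq0 i))
    (φ (2 ^ d * (u0 : 𝓞 K))) (hφ0 _ hν0) (φ (u : 𝓞 K)) (φ (w : 𝓞 K))
    (hφ0 _ u.ne_zero) (hφ0 _ w.ne_zero) A B l (by
      rw [hφ', hφ', hφ', map_mul φ (2 ^ d * (u0 : 𝓞 K)), map_mul φ (u : 𝓞 K),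
        map_mul φ (w : 𝓞 K), map_prod, map_prod, map_prod] at h
      exact h)
  rw [hdual, hdual, ← map_prod] at h1
  have hunit : ∀ x : 𝓞 K, IsUnit x → x ∉ (p l).asIdeal := fun x hx hd =>
    (p l).isPrime.ne_top (Ideal.eq_top_of_isUnit_mem _ hd hx)
  have hmul : ∀ x y : 𝓞 K, x ∉ (p l).asIdeal → y ∉ (p l).asIdeal → x * y ∉ (p l).asIdeal := by
    intro x y hx hy hd
    rcases (p l).isPrime.mem_or_mem hd with h | h
    · exact hx h
    · exact hy h
  have hs : (if l ∈ B then (-1 : 𝓞 K) else 1) ∉ (p l).asIdeal := by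
    split_ifs
    · exact hunit _ isUnit_one.neg
    · exact hunit _ isUnit_one
  have hν : (2 ^ d * (u0 : 𝓞 K)) ∉ (p l).asIdeal := by
    refine hmul _ _ ?_ (hunit _ u0.isUnit)
    intro hd
    exact hl2 ((p l).isPrime.mem_of_pow_mem d hd)
  have hνA : ∀ C : Finset ι, (if l ∈ C then 2 ^ d * (u0 : 𝓞 K) else 1) ∉ (p l).asIdeal := by
    intro C
    split_ifs
    · exact hν
    · exact hunit _ isUnit_one
  have ht : (if l ∈ A then (2 : 𝓞 K) else 1) ∉ (p l).asIdeal := by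
    split_ifs
    · exact hl2
    · exact hunit _ isUnit_one
  refine sq_mod_of_hasPoint (p l) hl2 _ hn _ _
    (hmul _ _ (hmul _ _ (hmul _ _ hs (hνA A)) (hunit _ u.isUnit)) (notMem_dual hp hq l A))
    (hmul _ _ (hmul _ _ (hmul _ _ (hmul _ _ hs (hνA B)) ht) (hunit _ w.isUnit))
      (notMem_dual hp hq l B)) ?_
  rw [hφ', hφ', hφ']
  have e1 : φ (if l ∈ B then (-1 : 𝓞 K) else 1) = if l ∈ B then -1 else 1 := by
    split_ifs
    · rw [map_neg, map_one]
    · exact map_one φ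
  have e2 : φ (if l ∈ A then (2 : 𝓞 K) else 1) = if l ∈ A then 2 else 1 := by
    split_ifs
    · exact map_ofNat φ 2
    · exact map_one φ
  have e3 : ∀ C : Finset ι, φ (if l ∈ C then 2 ^ d * (u0 : 𝓞 K) else 1) =
      if l ∈ C then φ (2 ^ d * (u0 : 𝓞 K)) else 1 := by
    intro C
    split_ifs
    · rfl
    · exact map_one φ
  rw [map_mul φ (2 ^ d * (u0 : 𝓞 K)),
    map_mul φ _ (dual q l A), map_mul φ _ (u : 𝓞 K), map_mul φ (if l ∈ B then (-1 : 𝓞 K) else 1),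
    map_mul φ _ (dual q l B), map_mul φ _ (w : 𝓞 K),
    map_mul φ _ (if l ∈ A then (2 : 𝓞 K) else 1),
    map_mul φ (if l ∈ B then (-1 : 𝓞 K) else 1) (if l ∈ B then 2 ^ d * (u0 : 𝓞 K) else 1),
    e1, e2, e3, e3]
  exact h1

/-- The case of even valuations at 2. -/
theorem core (hclass : Odd (NumberField.classNumber K))
    (h2 : Prime (2 : 𝓞 K)) (p : ι → HeightOneSpectrum (𝓞 K)) (hp : Function.Injective p)
    (hp2 : ∀ i, (2 : 𝓞 K) ∉ (p i).asIdeal) (m : ι → ℕ) (hm : ∀ i, Odd (m i))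
    (q : ι → 𝓞 K) (hq : ∀ i, Ideal.span {q i} = (p i).asIdeal ^ m i)
    (hqpos : ∀ i, ∀ f : K →+* ℝ, 0 < f (algebraMap (𝓞 K) K (q i)))
    (d : ℕ) (hd : d = 0 ∨ d = 1) (u0 : (𝓞 K)ˣ)
    (c e : 𝓞 K) (hne : 4 ∣ (u0 : 𝓞 K) * ∏ i, q i - c ^ 2 * (1 + 2 * e))
    (a b : K) (ha : a ≠ 0) (hb : b ≠ 0)
    (hva2 : IsSquare ((placeOf 2 h2).valuation K a))
    (hvb2 : IsSquare ((placeOf 2 h2).valuation K b))
    (h : SelmerPair K (algebraMap (𝓞 K) K (2 ^ d * (u0 : 𝓞 K) * ∏ i, q i)) a b) :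
    ∃ (A B : Finset ι) (u w : (𝓞 K)ˣ) (t : 𝓞 K) (r s : K), r ≠ 0 ∧ s ≠ 0 ∧
      a = algebraMap (𝓞 K) K ((u : 𝓞 K) * ∏ i ∈ A, q i) * r ^ 2 ∧
      b = algebraMap (𝓞 K) K ((w : 𝓞 K) * ∏ i ∈ B, q i) * s ^ 2 ∧
      IsClass p q d u0 e A B u w t := by
  classical
  have h20 : (algebraMap (𝓞 K) K 2) = 2 := map_ofNat _ _
  have hq0 : ∀ i, q i ≠ 0 := by
    intro i h0
    have h1 := hq i
    rw [h0, Ideal.span_singleton_eq_bot.mpr rfl] at h1
    exact (pow_ne_zero (m i) (p i).ne_bot) h1.symm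
  have hv2p : ∀ i, placeOf 2 h2 ≠ p i := by
    intro i heq
    apply hp2 i
    rw [← heq, mem_placeOf]
  have h2C : ∀ C : Finset ι, ¬ (2 : 𝓞 K) ∣ ∏ i ∈ C, q i := by
    intro C hdvd
    rw [← mem_placeOf h2] at hdvd
    exact notMem_prod hq _ C (fun i _ => hv2p i) hdvd
  have h2u : ∀ (x : (𝓞 K)ˣ) (C : Finset ι), ¬ (2 : 𝓞 K) ∣ (x : 𝓞 K) * ∏ i ∈ C, q i := by
    intro x C hdvd
    rcases h2.dvd_or_dvd hdvd with hdvd | hdvd
    · exact h2.not_isUnit (isUnit_of_dvd_unit hdvd x.isUnit)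
    · exact h2C C hdvd
  -- valuations of n
  have hnw : ∀ v : HeightOneSpectrum (𝓞 K), v ≠ placeOf 2 h2 → (∀ i, v ≠ p i) →
      v.valuation K (algebraMap (𝓞 K) K (2 ^ d * (u0 : 𝓞 K) * ∏ i, q i)) = 1 := by
    intro v hv hvp
    rw [map_mul, map_mul, map_mul, map_mul, map_pow, map_pow,
      val_eq_one v (notMem_of_ne h2 hv), val_unit,
      val_eq_one v (notMem_prod hq v Finset.univ fun i _ => hvp i)]
    simp
  have hnl : ∀ l, ¬ IsSquare ((p l).valuation K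
      (algebraMap (𝓞 K) K (2 ^ d * (u0 : 𝓞 K) * ∏ i, q i))) := by
    intro l
    rw [← Finset.mul_prod_erase Finset.univ q (Finset.mem_univ l), map_mul, map_mul, map_mul,
      map_mul, map_pow, map_pow, val_eq_one (p l) (hp2 l), val_unit, map_mul, map_mul,
      val_gen (p l) (m l) (q l) (hq l),
      val_eq_one (p l) (notMem_prod hq (p l) (Finset.univ.erase l) fun i hi heq =>
        Finset.ne_of_mem_erase hi (hp heq).symm)]
    simp only [one_pow, one_mul, mul_one]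
    exact not_isSquare_exp_odd (hm l)
  -- valuations away from 2 and the p i
  have haway : ∀ v : HeightOneSpectrum (𝓞 K), v ≠ placeOf 2 h2 → (∀ i, v ≠ p i) →
      IsSquare (v.valuation K a) ∧ IsSquare (v.valuation K b) := by
    intro v hv hvp
    have h2v : v.valuation K (2 : K) = 1 := by
      rw [← h20]; exact val_eq_one v (notMem_of_ne h2 hv)
    have key := isSquare_away (Valued.v : Valuation (v.adicCompletion K) _)
      (algebraMap K (v.adicCompletion K)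
        (algebraMap (𝓞 K) K (2 ^ d * (u0 : 𝓞 K) * ∏ i, q i)))
      (algebraMap K (v.adicCompletion K) a) (algebraMap K (v.adicCompletion K) b)
      ((map_ne_zero _).mpr ha) ((map_ne_zero _).mpr hb)
      (by rw [← map_ofNat (algebraMap K (v.adicCompletion K)) 2, val_completion]; exact h2v)
      (by rw [val_completion]; exact hnw v hv hvp) (h.1 v)
    rw [val_completion, val_completion] at key
    exact key
  obtain ⟨A, u, r, hr, har⟩ := exists_unit_prod_sq hclass p hp m hm q hq a ha (fun v hv => by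
    by_cases hv2 : v = placeOf 2 h2
    · rw [hv2]; exact hva2
    · exact (haway v hv2 hv).1)
  obtain ⟨B, w, s, hs, hbs⟩ := exists_unit_prod_sq hclass p hp m hm q hq b hb (fun v hv => by
    by_cases hv2 : v = placeOf 2 h2
    · rw [hv2]; exact hvb2
    · exact (haway v hv2 hv).2)
  -- real places
  have hprodpos : ∀ (C : Finset ι) (f : K →+* ℝ), 0 < f (algebraMap (𝓞 K) K (∏ i ∈ C, q i)) := by
    intro C f
    rw [map_prod, map_prod]
    exact Finset.prod_pos fun i _ => hqpos i f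
  have hsgn : ∀ (x : (𝓞 K)ˣ) (C : Finset ι) (y : K) (f : K →+* ℝ), y ≠ 0 →
      ∃ z : ℝ, 0 < z ∧ f (algebraMap (𝓞 K) K ((x : 𝓞 K) * ∏ i ∈ C, q i) * y ^ 2) =
        f (algebraMap (𝓞 K) K (x : 𝓞 K)) * z := by
    intro x C y f hy
    refine ⟨f (algebraMap (𝓞 K) K (∏ i ∈ C, q i)) * f y ^ 2, ?_, ?_⟩
    · have h1 := hprodpos C f
      have h3 : f y ≠ 0 := (map_ne_zero f).mpr hy
      positivity
    · simp only [map_mul, map_pow]; ring
  have hnsgn : ∀ f : K →+* ℝ, ∃ z : ℝ, 0 < z ∧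
      f (algebraMap (𝓞 K) K (2 ^ d * (u0 : 𝓞 K) * ∏ i, q i)) =
        f (algebraMap (𝓞 K) K (u0 : 𝓞 K)) * z := by
    intro f
    refine ⟨2 ^ d * f (algebraMap (𝓞 K) K (∏ i, q i)), ?_, ?_⟩
    · have h1 := hprodpos Finset.univ f
      positivity
    · simp only [map_mul, map_pow, map_ofNat]; ring
  have hreal : ∀ f : K →+* ℝ,
      (0 < f (algebraMap (𝓞 K) K (u0 : 𝓞 K)) →
        0 < f (algebraMap (𝓞 K) K (u : 𝓞 K)) * f (algebraMap (𝓞 K) K (w : 𝓞 K))) ∧
      (f (algebraMap (𝓞 K) K (u0 : 𝓞 K)) < 0 → 0 < f (algebraMap (𝓞 K) K (w : 𝓞 K))) := by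
    intro f
    obtain ⟨z, hz, hnz⟩ := hnsgn f
    obtain ⟨x, hx, hax⟩ := hsgn u A r f hr
    obtain ⟨y, hy, hby⟩ := hsgn w B s f hs
    rw [← har] at hax
    rw [← hbs] at hby
    constructor
    · intro hu0
      have h1 := real_pos _ (f a) (f b) (by rw [hnz]; exact mul_pos hu0 hz)
        ((map_ne_zero f).mpr ha) ((map_ne_zero f).mpr hb) (h.2 f)
      rw [hax, hby] at h1
      have hxy : 0 < x * y := mul_pos hx hy
      by_contra hcon
      have h3 : f (algebraMap (𝓞 K) K (u : 𝓞 K)) * f (algebraMap (𝓞 K) K (w : 𝓞 K)) *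
        (x * y) ≤ 0 := mul_nonpos_of_nonpos_of_nonneg (not_lt.mp hcon) hxy.le
      nlinarith
    · intro hu0
      have h1 := real_neg _ (f a) (f b) (by rw [hnz]; exact mul_neg_of_neg_of_pos hu0 hz)
        ((map_ne_zero f).mpr ha) ((map_ne_zero f).mpr hb) (h.2 f)
      rw [hby] at h1
      exact (pos_iff_pos_of_mul_pos h1).mpr hy
  have hpt : ∀ v : HeightOneSpectrum (𝓞 K),
      HasPoint (algebraMap K (v.adicCompletion K)
          (algebraMap (𝓞 K) K (2 ^ d * (u0 : 𝓞 K) * ∏ i, q i)))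
        (algebraMap K (v.adicCompletion K) (algebraMap (𝓞 K) K ((u : 𝓞 K) * ∏ i ∈ A, q i)))
        (algebraMap K (v.adicCompletion K) (algebraMap (𝓞 K) K ((w : 𝓞 K) * ∏ i ∈ B, q i))) := by
    intro v
    refine hasPoint_sq _ _ _ (algebraMap K (v.adicCompletion K) r)
      (algebraMap K (v.adicCompletion K) s) ((map_ne_zero _).mpr hr)
      ((map_ne_zero _).mpr hs) ?_
    rw [← map_pow, ← map_pow, ← map_mul, ← map_mul, ← har, ← hbs]
    exact h.1 v
  have hres := fun l => residues hp hq hq0 l (hp2 l) d u0 u w A B (hnl l) (hpt (p l))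
  rcases hd with rfl | rfl
  · have hpt2 := hpt (placeOf 2 h2)
    rw [pow_zero, one_mul] at hpt2
    obtain ⟨t, g, k, hg, hk, hAt, hBt⟩ := class_of_hasPoint h2 ((u0 : 𝓞 K) * ∏ i, q i) c e
      (h2u u0 Finset.univ) hne _ _ (h2u u A) (h2u w B) hpt2
    exact ⟨A, B, u, w, t, r, s, hr, hs, har, hbs, hreal,
      fun _ => ⟨⟨g, hg, hAt⟩, ⟨k, hk, hBt⟩⟩, fun h0 => absurd rfl h0, hres⟩
  · have hpt2 := hpt (placeOf 2 h2)
    rw [pow_one, mul_assoc] at hpt2
    obtain ⟨g, hg, hAt⟩ := even_class_of_hasPoint h2 ((u0 : 𝓞 K) * ∏ i, q i)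
      (h2u u0 Finset.univ) _ _ (h2u u A) (h2u w B) hpt2
    exact ⟨A, B, u, w, 0, r, s, hr, hs, har, hbs, hreal,
      fun h0 => absurd h0 one_ne_zero, fun _ => ⟨⟨g, hg, hAt⟩, rfl⟩, hres⟩

end Pool.Agent.MP009fd8W
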