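import Pool.Agent.Lib.MP_009fd8_agW.Main
import Pool.Agent.Lib.MP_009fd8_agM.MainB
import Pool.Agent.Lib.MP_009fd8_ag.FourSq

/-!
MP_009fd8_ag, AllTwists: representatives of Selmer pairs and final count.
-/

namespace Pool.Agent.MP009fd8W

open IsDedekindDomain NumberField WithZero Pool.Agent.MP009fd8
open Pool.Agent.MP009fd8M (dual neg_one_not_square exists_inv_mod_four)

variable {K : Type*} [Field K] [NumberField K] {ι : Type*} [Fintype ι] [DecidableEq ι]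

/-- The representatives of a Selmer pair that satisfy the conditions: two if d = 0, one if
d = 1. -/
theorem selmer_idx (hclass : Odd (NumberField.classNumber K))
    (h2 : Prime (2 : 𝓞 K)) (p : ι → HeightOneSpectrum (𝓞 K)) (hp : Function.Injective p)
    (hp2 : ∀ i, (2 : 𝓞 K) ∉ (p i).asIdeal) (m : ι → ℕ) (hm : ∀ i, Odd (m i))
    (q : ι → 𝓞 K) (hq : ∀ i, Ideal.span {q i} = (p i).asIdeal ^ m i)
    (hqpos : ∀ i, ∀ f : K →+* ℝ, 0 < f (algebraMap (𝓞 K) K (q i)))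
    (d : ℕ) (hd : d = 0 ∨ d = 1) (u0 : (𝓞 K)ˣ)
    (c e : 𝓞 K) (hne : 4 ∣ (u0 : 𝓞 K) * ∏ i, q i - c ^ 2 * (1 + 2 * e))
    (a b : K) (ha : a ≠ 0) (hb : b ≠ 0)
    (h : SelmerPair K (algebraMap (𝓞 K) K (2 ^ d * (u0 : 𝓞 K) * ∏ i, q i)) a b) :
    ∃ (A B : ℕ → Finset ι) (u w : ℕ → (𝓞 K)ˣ) (t : ℕ → 𝓞 K),
      (∀ j, IsClass p q d u0 e (A j) (B j) (u j) (w j) (t j) ∧
        TorsionPair (algebraMap (𝓞 K) K (2 ^ d * (u0 : 𝓞 K) * ∏ i, q i))
          (a * algebraMap (𝓞 K) K ((u j : 𝓞 K) * ∏ i ∈ A j, q i))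
          (b * algebraMap (𝓞 K) K ((w j : 𝓞 K) * ∏ i ∈ B j, q i))) ∧
      (d = 0 → ∀ x : K, algebraMap (𝓞 K) K (((u 0 : 𝓞 K) * ∏ i ∈ A 0, q i) *
        ((u 1 : 𝓞 K) * ∏ i ∈ A 1, q i)) ≠ x ^ 2) := by
  classical
  have h20 : (algebraMap (𝓞 K) K 2) = 2 := map_ofNat _ _
  have hq0 : ∀ i, q i ≠ 0 := by
    intro i h0
    have h1 := hq i
    rw [h0, Ideal.span_singleton_eq_bot.mpr rfl] at h1
    exact (pow_ne_zero (m i) (p i).ne_bot) h1.symm
  have hv2p : ∀ i, placeOf 2 h2 ≠ p i := by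
    intro i heq
    apply hp2 i
    rw [← heq, mem_placeOf]
  obtain ⟨n, hndef⟩ : ∃ n, n = algebraMap (𝓞 K) K (2 ^ d * (u0 : 𝓞 K) * ∏ i, q i) := ⟨_, rfl⟩
  have hn0 : n ≠ 0 := by
    rw [hndef, Ne, map_eq_zero_iff _ (FaithfulSMul.algebraMap_injective (𝓞 K) K)]
    exact mul_ne_zero (mul_ne_zero (pow_ne_zero d two_ne_zero) u0.ne_zero)
      (Finset.prod_ne_zero_iff.mpr fun i _ => hq0 i)
  have h22 : (placeOf 2 h2).valuation K 2 = exp (-1 : ℤ) := by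
    rw [← h20]; exact val_self h2
  have hn2 : (placeOf 2 h2).valuation K n = exp (-1 : ℤ) ^ d := by
    rw [hndef, map_mul, map_mul, map_mul, map_mul, map_pow, map_pow, h20, h22, val_unit,
      val_eq_one _ (notMem_prod hq _ Finset.univ fun i _ => hv2p i), mul_one, mul_one]
  rw [← hndef] at h ⊢
  have hv0 : ∀ {x : K}, x ≠ 0 → (placeOf 2 h2).valuation K x ≠ 0 := fun hx =>
    (Valuation.ne_zero_iff _).mpr hx
  have hor : ∀ x : K, x ≠ 0 → ¬ IsSquare ((placeOf 2 h2).valuation K x) →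
      IsSquare (exp (-1 : ℤ) * (placeOf 2 h2).valuation K x) := by
    intro x hx hns
    rcases isSquare_or (hv0 hx) with h1 | h1
    · exact absurd h1 hns
    · exact h1
  -- one representative
  have one : ∀ a b : K, a ≠ 0 → b ≠ 0 → SelmerPair K n a b →
      IsSquare ((placeOf 2 h2).valuation K a) → IsSquare ((placeOf 2 h2).valuation K b) →
      ∃ (A B : Finset ι) (u w : (𝓞 K)ˣ) (t : 𝓞 K) (r : K), r ≠ 0 ∧
        a = algebraMap (𝓞 K) K ((u : 𝓞 K) * ∏ i ∈ A, q i) * r ^ 2 ∧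
        IsClass p q d u0 e A B u w t ∧
        TorsionPair n (a * algebraMap (𝓞 K) K ((u : 𝓞 K) * ∏ i ∈ A, q i))
          (b * algebraMap (𝓞 K) K ((w : 𝓞 K) * ∏ i ∈ B, q i)) := by
    intro a b ha hb h hva hvb
    rw [hndef] at h
    obtain ⟨A, B, u, w, t, r, s, hr, hs, har, hbs, hcl⟩ := core hclass h2 p hp hp2 m hm q hq
      hqpos d hd u0 c e hne a b ha hb hva hvb h
    have hA0 : algebraMap (𝓞 K) K ((u : 𝓞 K) * ∏ i ∈ A, q i) ≠ 0 := by
      intro h0; rw [h0, zero_mul] at har; exact ha har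
    have hB0 : algebraMap (𝓞 K) K ((w : 𝓞 K) * ∏ i ∈ B, q i) ≠ 0 := by
      intro h0; rw [h0, zero_mul] at hbs; exact hb hbs
    exact ⟨A, B, u, w, t, r, hr, har, hcl, _, _, mul_ne_zero hA0 hr, mul_ne_zero hB0 hs,
      Or.inl ⟨by rw [har]; ring, by rw [hbs]; ring⟩⟩
  rcases hd with rfl | rfl
  · -- n prime to 2
    rw [pow_zero] at hn2
    have hnodd : ∀ a b : K, a ≠ 0 → b ≠ 0 → SelmerPair K n a b →
        IsSquare ((placeOf 2 h2).valuation K a * (placeOf 2 h2).valuation K b) →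
        IsSquare ((placeOf 2 h2).valuation K a) ∧ IsSquare ((placeOf 2 h2).valuation K b) := by
      intro a b ha hb h hab
      have h1 : IsSquare ((placeOf 2 h2).valuation K a) := by
        by_contra hcon
        refine Pool.Agent.MP009fd8M.no_point_odd_pair
          (Valued.v : Valuation ((placeOf 2 h2).adicCompletion K) _) _ _ _
          ((map_ne_zero _).mpr ha) ((map_ne_zero _).mpr hb) ?_ ?_ ?_ (h.1 (placeOf 2 h2))
        · rw [val_completion, val_completion]; exact hab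
        · rw [val_completion]; exact hcon
        · rw [val_completion]; exact hn2
      refine ⟨h1, ?_⟩
      have h3 : (placeOf 2 h2).valuation K b =
          ((placeOf 2 h2).valuation K a * (placeOf 2 h2).valuation K b) /
            (placeOf 2 h2).valuation K a := by
        rw [mul_comm, mul_div_assoc, div_self (hv0 ha), mul_one]
      rw [h3]
      exact hab.div h1
    have main : ∀ a b : K, a ≠ 0 → b ≠ 0 → SelmerPair K n a b →
        IsSquare ((placeOf 2 h2).valuation K a * (placeOf 2 h2).valuation K b) →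
        ∃ (A B : ℕ → Finset ι) (u w : ℕ → (𝓞 K)ˣ) (t : ℕ → 𝓞 K),
          (∀ j, IsClass p q 0 u0 e (A j) (B j) (u j) (w j) (t j) ∧
            TorsionPair n (a * algebraMap (𝓞 K) K ((u j : 𝓞 K) * ∏ i ∈ A j, q i))
              (b * algebraMap (𝓞 K) K ((w j : 𝓞 K) * ∏ i ∈ B j, q i))) ∧
          (0 = 0 → ∀ x : K, algebraMap (𝓞 K) K (((u 0 : 𝓞 K) * ∏ i ∈ A 0, q i) *
            ((u 1 : 𝓞 K) * ∏ i ∈ A 1, q i)) ≠ x ^ 2) := by
      intro a b ha hb h hab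
      have h' := h.translate_zero hn0 ha
      obtain ⟨hva, hvb⟩ := hnodd a b ha hb h hab
      have hnb0 : -n * b ≠ 0 := mul_ne_zero (neg_ne_zero.mpr hn0) hb
      obtain ⟨A, B, u, w, t, r, hr, har, hcl, hT⟩ := one a b ha hb h hva hvb
      obtain ⟨A', B', u', w', t', r', hr', har', hcl', hT'⟩ := one (-a) (-n * b)
        (neg_ne_zero.mpr ha) hnb0 h' (by rw [Valuation.map_neg]; exact hva)
        (by rw [map_mul, Valuation.map_neg, hn2, one_mul]; exact hvb)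
      refine ⟨fun j => if j = 0 then A else A', fun j => if j = 0 then B else B',
        fun j => if j = 0 then u else u', fun j => if j = 0 then w else w',
        fun j => if j = 0 then t else t', ?_, ?_⟩
      · intro j
        by_cases hj : j = 0
        · simp only [hj, if_true]
          exact ⟨hcl, hT⟩
        · simp only [hj, if_false]
          exact ⟨hcl', torsion_zero two_ne_zero hn0 hT'⟩
      · intro _ x hx
        simp only [if_true, one_ne_zero, if_false] at hx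
        rw [map_mul] at hx
        apply neg_one_not_square h2 (x * r * r' / a)
        have h5 : (x * r * r' / a) ^ 2 = (x ^ 2) * r ^ 2 * r' ^ 2 / a ^ 2 := by ring
        rw [h5, ← hx]
        have h6 : algebraMap (𝓞 K) K ((u : 𝓞 K) * ∏ i ∈ A, q i) *
            algebraMap (𝓞 K) K ((u' : 𝓞 K) * ∏ i ∈ A', q i) * r ^ 2 * r' ^ 2 = a * (-a) := by
          rw [har']
          linear_combination
            (-(algebraMap (𝓞 K) K ((u' : 𝓞 K) * ∏ i ∈ A', q i) * r' ^ 2)) * har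
        rw [h6]
        field_simp
    by_cases hab2 : IsSquare ((placeOf 2 h2).valuation K a * (placeOf 2 h2).valuation K b)
    · exact main a b ha hb h hab2
    · obtain ⟨A, B, u, w, t, hj, hx⟩ := main (n * a) (2 * b) (mul_ne_zero hn0 ha)
        (mul_ne_zero two_ne_zero hb) (h.translate_q hn0 hb)
        (by
          rw [map_mul, map_mul, hn2, h22, one_mul]
          rcases isSquare_or (mul_ne_zero (hv0 ha) (hv0 hb)) with h1 | h1
          · exact absurd h1 hab2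
          · rw [mul_left_comm]; exact h1)
      exact ⟨A, B, u, w, t, fun j => ⟨(hj j).1, torsion_n two_ne_zero hn0 (hj j).2⟩, hx⟩
  · -- n even
    rw [pow_one] at hn2
    have fin : (∃ (A B : Finset ι) (u w : (𝓞 K)ˣ) (t : 𝓞 K),
        IsClass p q 1 u0 e A B u w t ∧
        TorsionPair n (a * algebraMap (𝓞 K) K ((u : 𝓞 K) * ∏ i ∈ A, q i))
          (b * algebraMap (𝓞 K) K ((w : 𝓞 K) * ∏ i ∈ B, q i))) →
        ∃ (A B : ℕ → Finset ι) (u w : ℕ → (𝓞 K)ˣ) (t : ℕ → 𝓞 K),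
          (∀ j, IsClass p q 1 u0 e (A j) (B j) (u j) (w j) (t j) ∧
            TorsionPair n (a * algebraMap (𝓞 K) K ((u j : 𝓞 K) * ∏ i ∈ A j, q i))
              (b * algebraMap (𝓞 K) K ((w j : 𝓞 K) * ∏ i ∈ B j, q i))) ∧
          (1 = 0 → ∀ x : K, algebraMap (𝓞 K) K (((u 0 : 𝓞 K) * ∏ i ∈ A 0, q i) *
            ((u 1 : 𝓞 K) * ∏ i ∈ A 1, q i)) ≠ x ^ 2) := by
      rintro ⟨A, B, u, w, t, hcl, hT⟩
      exact ⟨fun _ => A, fun _ => B, fun _ => u, fun _ => w, fun _ => t,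
        fun _ => ⟨hcl, hT⟩, fun h0 => absurd h0 one_ne_zero⟩
    apply fin
    have hee : IsSquare (exp (-1 : ℤ) * exp (-1 : ℤ) : WithZero (Multiplicative ℤ)) :=
      ⟨_, rfl⟩
    by_cases hva : IsSquare ((placeOf 2 h2).valuation K a) <;>
      by_cases hvb : IsSquare ((placeOf 2 h2).valuation K b)
    · obtain ⟨A, B, u, w, t, r, hr, har, hcl, hT⟩ := one a b ha hb h hva hvb
      exact ⟨A, B, u, w, t, hcl, hT⟩
    · obtain ⟨A, B, u, w, t, r, hr, har, hcl, hT⟩ := one (-a) (-n * b)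
        (neg_ne_zero.mpr ha) (mul_ne_zero (neg_ne_zero.mpr hn0) hb) (h.translate_zero hn0 ha)
        (by rw [Valuation.map_neg]; exact hva)
        (by rw [map_mul, Valuation.map_neg, hn2]; exact hor b hb hvb)
      exact ⟨A, B, u, w, t, hcl, torsion_zero two_ne_zero hn0 hT⟩
    · have hT1 := (h.translate_zero hn0 ha).translate_q hn0
        (mul_ne_zero (neg_ne_zero.mpr hn0) hb)
      obtain ⟨A, B, u, w, t, r, hr, har, hcl, hT⟩ := one (n * -a) (2 * (-n * b))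
        (mul_ne_zero hn0 (neg_ne_zero.mpr ha))
        (mul_ne_zero two_ne_zero (mul_ne_zero (neg_ne_zero.mpr hn0) hb)) hT1
        (by rw [map_mul, Valuation.map_neg, hn2]; exact hor a ha hva)
        (by
          rw [map_mul, map_mul, Valuation.map_neg, hn2, h22, ← mul_assoc]
          exact hee.mul hvb)
      refine ⟨A, B, u, w, t, hcl, torsion_zero two_ne_zero hn0 (torsion_n two_ne_zero hn0 ?_)⟩
      exact hT
    · obtain ⟨A, B, u, w, t, r, hr, har, hcl, hT⟩ := one (n * a) (2 * b)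
        (mul_ne_zero hn0 ha) (mul_ne_zero two_ne_zero hb) (h.translate_q hn0 hb)
        (by rw [map_mul, hn2]; exact hor a ha hva)
        (by rw [map_mul, h22]; exact hor b hb hvb)
      exact ⟨A, B, u, w, t, hcl, torsion_n two_ne_zero hn0 hT⟩

/-- The pairs of units with the same class differ by squares. -/
theorem isSquare_of_isClass
    (hpos : ∀ u : (𝓞 K)ˣ, (∀ f : K →+* ℝ, 0 < f (algebraMap (𝓞 K) K (u : 𝓞 K))) → IsSquare u)
    (hfour : ∀ u : (𝓞 K)ˣ, (∃ m : 𝓞 K, (4 : 𝓞 K) ∣ (u : 𝓞 K) - m ^ 2) → IsSquare u)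
    (h2 : Prime (2 : 𝓞 K)) {p : ι → HeightOneSpectrum (𝓞 K)}
    (hp2 : ∀ i, (2 : 𝓞 K) ∉ (p i).asIdeal) {m : ι → ℕ}
    {q : ι → 𝓞 K} (hq : ∀ i, Ideal.span {q i} = (p i).asIdeal ^ m i)
    {d : ℕ} {u0 : (𝓞 K)ˣ} {e : 𝓞 K} {A B : Finset ι} {u w u' w' : (𝓞 K)ˣ} {t t' : 𝓞 K}
    (h : IsClass p q d u0 e A B u w t) (h' : IsClass p q d u0 e A B u' w' t')
    (htt : 2 ∣ t - t') : IsSquare (u * u') ∧ IsSquare (w * w') := by
  have hv2p : ∀ i, placeOf 2 h2 ≠ p i := by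
    intro i heq
    apply hp2 i
    rw [← heq, mem_placeOf]
  obtain ⟨P, hP⟩ : ∃ P, P = ∏ i ∈ A, q i := ⟨_, rfl⟩
  have hP2 : ¬ 2 ∣ P := by
    rw [hP, ← mem_placeOf h2]
    exact notMem_prod hq _ A fun i _ => hv2p i
  obtain ⟨y, z, hz⟩ := exists_inv_mod_four h2 hP2
  obtain ⟨hr, h0, h1, _⟩ := h
  obtain ⟨hr', h0', h1', _⟩ := h'
  have huu : IsSquare (u * u') := by
    apply hfour
    by_cases hd : d = 0
    · obtain ⟨⟨g, _, k, hk⟩, _⟩ := h0 hd
      obtain ⟨⟨g', _, k', hk'⟩, _⟩ := h0' hd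
      obtain ⟨x, hx⟩ := htt
      rw [← hP] at hk hk'
      refine ⟨y * (g * g' * (1 + 2 * t ^ 2)), ?_⟩
      rw [Units.val_mul]
      have e1 : (u : 𝓞 K) * P = g ^ 2 * (1 + 2 * t ^ 2) + 4 * k := by linear_combination hk
      have e2 : (u' : 𝓞 K) * P = g' ^ 2 * (1 + 2 * t' ^ 2) + 4 * k' := by
        linear_combination hk'
      have e3 : t' = t - 2 * x := by linear_combination -hx
      have e4 : (u : 𝓞 K) * P * ((u' : 𝓞 K) * P) - (g * g' * (1 + 2 * t ^ 2)) ^ 2 =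
          4 * (g ^ 2 * (1 + 2 * t ^ 2) * (g' ^ 2 * (-2 * t * x + 2 * x ^ 2) + k')
            + k * (g' ^ 2 * (1 + 2 * (t - 2 * x) ^ 2) + 4 * k')) := by
        rw [e1, e2, e3]; ring
      obtain ⟨M, hM⟩ : ∃ M, M = g ^ 2 * (1 + 2 * t ^ 2) * (g' ^ 2 * (-2 * t * x + 2 * x ^ 2) + k')
            + k * (g' ^ 2 * (1 + 2 * (t - 2 * x) ^ 2) + 4 * k') := ⟨_, rfl⟩
      rw [← hM] at e4
      have e5 : P * y = 1 + 4 * z := by linear_combination hz
      refine ⟨y ^ 2 * M - (u : 𝓞 K) * u' * z * (P * y + 1), ?_⟩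
      linear_combination y ^ 2 * e4 - (u : 𝓞 K) * u' * (P * y + 1) * e5
    · obtain ⟨⟨g, _, k, hk⟩, _⟩ := h1 hd
      obtain ⟨⟨g', _, k', hk'⟩, _⟩ := h1' hd
      rw [← hP] at hk hk'
      refine ⟨y * (g * g'), ?_⟩
      rw [Units.val_mul]
      have e1 : (u : 𝓞 K) * P = g ^ 2 + 4 * k := by linear_combination hk
      have e2 : (u' : 𝓞 K) * P = g' ^ 2 + 4 * k' := by linear_combination hk'
      have e4 : (u : 𝓞 K) * P * ((u' : 𝓞 K) * P) - (g * g') ^ 2 =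
          4 * (g ^ 2 * k' + k * g' ^ 2 + 4 * k * k') := by
        rw [e1, e2]; ring
      have e5 : P * y = 1 + 4 * z := by linear_combination hz
      refine ⟨y ^ 2 * (g ^ 2 * k' + k * g' ^ 2 + 4 * k * k') -
        (u : 𝓞 K) * u' * z * (P * y + 1), ?_⟩
      linear_combination y ^ 2 * e4 - (u : 𝓞 K) * u' * (P * y + 1) * e5
  refine ⟨huu, ?_⟩
  obtain ⟨η, hη⟩ := huu
  apply hpos
  intro f
  obtain ⟨hp1, hn1⟩ := hr f
  obtain ⟨hp1', hn1'⟩ := hr' f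
  rw [Units.val_mul, map_mul, map_mul]
  have hu0 : f (algebraMap (𝓞 K) K (u0 : 𝓞 K)) ≠ 0 := by simp
  have hη0 : f (algebraMap (𝓞 K) K (η : 𝓞 K)) ≠ 0 := by simp
  have huu' : f (algebraMap (𝓞 K) K (u : 𝓞 K)) * f (algebraMap (𝓞 K) K (u' : 𝓞 K)) =
      f (algebraMap (𝓞 K) K (η : 𝓞 K)) ^ 2 := by
    rw [← map_mul, ← map_mul, ← Units.val_mul, hη, Units.val_mul, map_mul, map_mul, sq]
  have hpos2 : 0 < f (algebraMap (𝓞 K) K (η : 𝓞 K)) ^ 2 := by positivity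
  rcases lt_or_gt_of_ne hu0 with hlt | hgt
  · exact mul_pos (hn1 hlt) (hn1' hlt)
  · have h3 := mul_pos (hp1 hgt) (hp1' hgt)
    have h4 : 0 < f (algebraMap (𝓞 K) K (η : 𝓞 K)) ^ 2 *
        (f (algebraMap (𝓞 K) K (w : 𝓞 K)) * f (algebraMap (𝓞 K) K (w' : 𝓞 K))) := by
      rw [← huu']
      linarith
    exact (pos_iff_pos_of_mul_pos h4).mp hpos2

theorem classes_finite (p : ι → HeightOneSpectrum (𝓞 K)) (q : ι → 𝓞 K) (d : ℕ) (u0 : (𝓞 K)ˣ)
    (e : 𝓞 K) : (classes p q d u0 e).Finite := by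
  have : Finite (𝓞 K ⧸ Ideal.span {(2 : 𝓞 K)}) := by
    apply Ideal.finiteQuotientOfFreeOfNeBot
    rw [Ne, Ideal.span_singleton_eq_bot]
    exact two_ne_zero
  exact Set.toFinite _

/-- The pigeonhole argument. -/
theorem uniform (hclass : Odd (NumberField.classNumber K))
    (hpos : ∀ u : (𝓞 K)ˣ, (∀ f : K →+* ℝ, 0 < f (algebraMap (𝓞 K) K (u : 𝓞 K))) → IsSquare u)
    (hfour : ∀ u : (𝓞 K)ˣ, (∃ m : 𝓞 K, (4 : 𝓞 K) ∣ (u : 𝓞 K) - m ^ 2) → IsSquare u)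
    (h2 : Prime (2 : 𝓞 K)) (p : ι → HeightOneSpectrum (𝓞 K)) (hp : Function.Injective p)
    (hp2 : ∀ i, (2 : 𝓞 K) ∉ (p i).asIdeal) (m : ι → ℕ) (hm : ∀ i, Odd (m i))
    (q : ι → 𝓞 K) (hq : ∀ i, Ideal.span {q i} = (p i).asIdeal ^ m i)
    (hqpos : ∀ i, ∀ f : K →+* ℝ, 0 < f (algebraMap (𝓞 K) K (q i)))
    (d : ℕ) (hd : d = 0 ∨ d = 1) (u0 : (𝓞 K)ˣ)
    (c e : 𝓞 K) (hne : 4 ∣ (u0 : 𝓞 K) * ∏ i, q i - c ^ 2 * (1 + 2 * e))
    (P : Finset (K × K)) (hP0 : ∀ p ∈ P, p.1 ≠ 0 ∧ p.2 ≠ 0)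
    (hP : ∀ x ∈ P, HasPoint (algebraMap (𝓞 K) K (2 ^ d * (u0 : 𝓞 K) * ∏ i, q i)) x.1 x.2)
    (hPne : ∀ x ∈ P, ∀ x' ∈ P, x ≠ x' →
      ¬ TorsionPair (algebraMap (𝓞 K) K (2 ^ d * (u0 : 𝓞 K) * ∏ i, q i))
        (x.1 * x'.1) (x.2 * x'.2))
    (hcard : (classes p q d u0 e).ncard ≤ (2 - d) * P.card)
    (a b : K) (ha : a ≠ 0) (hb : b ≠ 0)
    (h : SelmerPair K (algebraMap (𝓞 K) K (2 ^ d * (u0 : 𝓞 K) * ∏ i, q i)) a b) :
    ∃ x ∈ P, TorsionPair (algebraMap (𝓞 K) K (2 ^ d * (u0 : 𝓞 K) * ∏ i, q i))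
      (a * x.1) (b * x.2) := by
  classical
  by_contra hcon
  push Not at hcon
  have hq0 : ∀ i, q i ≠ 0 := by
    intro i h0
    have h1 := hq i
    rw [h0, Ideal.span_singleton_eq_bot.mpr rfl] at h1
    exact (pow_ne_zero (m i) (p i).ne_bot) h1.symm
  have hn0 : algebraMap (𝓞 K) K (2 ^ d * (u0 : 𝓞 K) * ∏ i, q i) ≠ 0 := by
    rw [Ne, map_eq_zero_iff _ (FaithfulSMul.algebraMap_injective (𝓞 K) K)]
    exact mul_ne_zero (mul_ne_zero (pow_ne_zero d two_ne_zero) u0.ne_zero)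
      (Finset.prod_ne_zero_iff.mpr fun i _ => hq0 i)
  have hC0 : ∀ C : Finset ι, algebraMap (𝓞 K) K (∏ i ∈ C, q i) ≠ 0 := by
    intro C
    rw [Ne, map_eq_zero_iff _ (FaithfulSMul.algebraMap_injective (𝓞 K) K)]
    exact Finset.prod_ne_zero_iff.mpr fun i _ => hq0 i
  -- the set of all pairs considered
  have hab : (a, b) ∉ P := by
    intro hmem
    exact hcon _ hmem ⟨a, b, ha, hb, Or.inl ⟨by ring, by ring⟩⟩
  have hS : ∀ x ∈ insert (a, b) P,
      ∃ (A B : ℕ → Finset ι) (u w : ℕ → (𝓞 K)ˣ) (t : ℕ → 𝓞 K),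
      (∀ j, IsClass p q d u0 e (A j) (B j) (u j) (w j) (t j) ∧
        TorsionPair (algebraMap (𝓞 K) K (2 ^ d * (u0 : 𝓞 K) * ∏ i, q i))
          (x.1 * algebraMap (𝓞 K) K ((u j : 𝓞 K) * ∏ i ∈ A j, q i))
          (x.2 * algebraMap (𝓞 K) K ((w j : 𝓞 K) * ∏ i ∈ B j, q i))) ∧
      (d = 0 → ∀ x : K, algebraMap (𝓞 K) K (((u 0 : 𝓞 K) * ∏ i ∈ A 0, q i) *
        ((u 1 : 𝓞 K) * ∏ i ∈ A 1, q i)) ≠ x ^ 2) := by
    intro x hx
    have hx' : x.1 ≠ 0 ∧ x.2 ≠ 0 ∧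
        SelmerPair K (algebraMap (𝓞 K) K (2 ^ d * (u0 : 𝓞 K) * ∏ i, q i)) x.1 x.2 := by
      rcases Finset.mem_insert.1 hx with rfl | hx
      · exact ⟨ha, hb, h⟩
      · exact ⟨(hP0 x hx).1, (hP0 x hx).2, fun v => (hP x hx).map _, fun f => (hP x hx).map f⟩
    exact selmer_idx hclass h2 p hp hp2 m hm q hq hqpos d hd u0 c e hne x.1 x.2 hx'.1 hx'.2.1
      hx'.2.2
  choose! A B u w t hT hns using hS
  have hle : ((insert (a, b) P) ×ˢ (Finset.range (2 - d))).card ≤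
      (classes p q d u0 e).ncard := by
    rw [← Set.ncard_coe_finset]
    refine Set.ncard_le_ncard_of_injOn
      (fun x => (A x.1 x.2, B x.1 x.2, Ideal.Quotient.mk _ (t x.1 x.2))) ?_ ?_
      (classes_finite p q d u0 e)
    · rintro ⟨x, j⟩ hx
      have hx' : x ∈ insert (a, b) P := by
        have : (x, j) ∈ (insert (a, b) P) ×ˢ (Finset.range (2 - d)) := by exact_mod_cast hx
        exact (Finset.mem_product.1 this).1
      exact ⟨u x j, w x j, t x j, rfl, (hT x hx' j).1⟩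
    · rintro ⟨x, j⟩ hx ⟨x', j'⟩ hx' hxx
      have hx0 : (x, j) ∈ (insert (a, b) P) ×ˢ (Finset.range (2 - d)) := by exact_mod_cast hx
      have hx0' : (x', j') ∈ (insert (a, b) P) ×ˢ (Finset.range (2 - d)) := by
        exact_mod_cast hx'
      have hx1 : x ∈ insert (a, b) P := (Finset.mem_product.1 hx0).1
      have hx1' : x' ∈ insert (a, b) P := (Finset.mem_product.1 hx0').1
      have hj : j < 2 - d := Finset.mem_range.1 (Finset.mem_product.1 hx0).2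
      have hj' : j' < 2 - d := Finset.mem_range.1 (Finset.mem_product.1 hx0').2
      simp only [Prod.mk.injEq] at hxx
      obtain ⟨hAA, hBB, htt⟩ := hxx
      have hdvd : (2 : 𝓞 K) ∣ t x j - t x' j' := by
        rw [← Ideal.mem_span_singleton]
        exact Ideal.Quotient.eq.1 htt
      have hc1 := (hT x hx1 j).1
      have hc1' := (hT x' hx1' j').1
      rw [← hAA, ← hBB] at hc1'
      obtain ⟨⟨z, hz⟩, ⟨y, hy⟩⟩ := isSquare_of_isClass hpos hfour h2 hp2 hq hc1 hc1' hdvd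
      have hz' : algebraMap (𝓞 K) K (u x j : 𝓞 K) * algebraMap (𝓞 K) K (u x' j' : 𝓞 K) =
          algebraMap (𝓞 K) K (z : 𝓞 K) ^ 2 := by
        rw [← map_mul, ← Units.val_mul, hz, Units.val_mul, map_mul]; ring
      have hy' : algebraMap (𝓞 K) K (w x j : 𝓞 K) * algebraMap (𝓞 K) K (w x' j' : 𝓞 K) =
          algebraMap (𝓞 K) K (y : 𝓞 K) ^ 2 := by
        rw [← map_mul, ← Units.val_mul, hy, Units.val_mul, map_mul]; ring
      have hz0 : algebraMap (𝓞 K) K (z : 𝓞 K) ≠ 0 := by simp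
      have hy0 : algebraMap (𝓞 K) K (y : 𝓞 K) ≠ 0 := by simp
      have ht : TorsionPair (algebraMap (𝓞 K) K (2 ^ d * (u0 : 𝓞 K) * ∏ i, q i))
          (x.1 * x'.1) (x.2 * x'.2) := by
        have h5 := (hT x hx1 j).2.mul two_ne_zero hn0 (hT x' hx1' j').2
        rw [← hAA, ← hBB] at h5
        rw [map_mul _ (u x j : 𝓞 K), map_mul _ (u x' j' : 𝓞 K), map_mul _ (w x j : 𝓞 K),
          map_mul _ (w x' j' : 𝓞 K)] at h5
        refine TorsionPair.of_mul_sq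
          (t := algebraMap (𝓞 K) K (z : 𝓞 K) * algebraMap (𝓞 K) K (∏ i ∈ A x j, q i))
          (t' := algebraMap (𝓞 K) K (y : 𝓞 K) * algebraMap (𝓞 K) K (∏ i ∈ B x j, q i))
          (mul_ne_zero hz0 (hC0 _)) (mul_ne_zero hy0 (hC0 _)) ?_
        rw [mul_pow, mul_pow, ← hz', ← hy']
        convert h5 using 1 <;> ring
      have hxeq : x = x' := by
        by_contra hne'
        rcases Finset.mem_insert.1 hx1 with rfl | hxP
        · rcases Finset.mem_insert.1 hx1' with h6 | hxP'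
          · exact hne' h6.symm
          · exact hcon _ hxP' ht
        · rcases Finset.mem_insert.1 hx1' with rfl | hxP'
          · refine hcon _ hxP ?_
            convert ht using 1 <;> ring
          · exact hPne x hxP x' hxP' hne' ht
      subst hxeq
      have hjj : j = j' := by
        by_contra hjj
        have hd0 : d = 0 := by omega
        have hAx : algebraMap (𝓞 K) K (((u x j : 𝓞 K) * ∏ i ∈ A x j, q i) *
            ((u x j' : 𝓞 K) * ∏ i ∈ A x j', q i)) =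
            (algebraMap (𝓞 K) K (z : 𝓞 K) * algebraMap (𝓞 K) K (∏ i ∈ A x j, q i)) ^ 2 := by
          rw [mul_pow, ← hz', ← hAA]
          simp only [map_mul]
          ring
        have hcases : (j = 0 ∧ j' = 1) ∨ (j = 1 ∧ j' = 0) := by omega
        rcases hcases with ⟨h6, h7⟩ | ⟨h6, h7⟩
        · rw [h6, h7] at hAx
          exact hns x hx1 hd0 _ hAx
        · rw [h6, h7] at hAx
          refine hns x hx1 hd0 _ (Eq.trans ?_ hAx)
          rw [mul_comm]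
      rw [hjj]
  rw [Finset.card_product, Finset.card_insert_of_notMem hab, Finset.card_range] at hle
  rcases hd with rfl | rfl
  · omega
  · omega

/-- The final statement: upper bound and pigeonhole form. -/
theorem all_twists (hclass : Odd (NumberField.classNumber K))
    (hpos : ∀ u : (𝓞 K)ˣ, (∀ f : K →+* ℝ, 0 < f (algebraMap (𝓞 K) K (u : 𝓞 K))) → IsSquare u)
    (h2 : Prime (2 : 𝓞 K)) (p : ι → HeightOneSpectrum (𝓞 K)) (hp : Function.Injective p)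
    (hp2 : ∀ i, (2 : 𝓞 K) ∉ (p i).asIdeal) (m : ι → ℕ) (hm : ∀ i, Odd (m i))
    (q : ι → 𝓞 K) (hq : ∀ i, Ideal.span {q i} = (p i).asIdeal ^ m i)
    (hqpos : ∀ i, ∀ f : K →+* ℝ, 0 < f (algebraMap (𝓞 K) K (q i)))
    (d : ℕ) (hd : d ≤ 1) (u0 : (𝓞 K)ˣ)
    (c e : 𝓞 K) (hne : 4 ∣ (u0 : 𝓞 K) * ∏ i, q i - c ^ 2 * (1 + 2 * e)) :
    (∀ a b : K, a ≠ 0 → b ≠ 0 →
      SelmerPair K (algebraMap (𝓞 K) K (2 ^ d * (u0 : 𝓞 K) * ∏ i, q i)) a b →
      ∃ (A B : Finset ι) (u w : (𝓞 K)ˣ) (t : 𝓞 K), IsClass p q d u0 e A B u w t ∧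
        TorsionPair (algebraMap (𝓞 K) K (2 ^ d * (u0 : 𝓞 K) * ∏ i, q i))
          (a * algebraMap (𝓞 K) K ((u : 𝓞 K) * ∏ i ∈ A, q i))
          (b * algebraMap (𝓞 K) K ((w : 𝓞 K) * ∏ i ∈ B, q i))) ∧
    (∀ P : Finset (K × K),
      (∀ x ∈ P, x.1 ≠ 0 ∧ x.2 ≠ 0 ∧
        HasPoint (algebraMap (𝓞 K) K (2 ^ d * (u0 : 𝓞 K) * ∏ i, q i)) x.1 x.2) →
      (∀ x ∈ P, ∀ x' ∈ P, x ≠ x' →
        ¬ TorsionPair (algebraMap (𝓞 K) K (2 ^ d * (u0 : 𝓞 K) * ∏ i, q i))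
          (x.1 * x'.1) (x.2 * x'.2)) →
      (classes p q d u0 e).ncard ≤ (2 - d) * P.card →
      ∀ a b : K, a ≠ 0 → b ≠ 0 →
        (SelmerPair K (algebraMap (𝓞 K) K (2 ^ d * (u0 : 𝓞 K) * ∏ i, q i)) a b ↔
          HasPoint (algebraMap (𝓞 K) K (2 ^ d * (u0 : 𝓞 K) * ∏ i, q i)) a b) ∧
        (SelmerPair K (algebraMap (𝓞 K) K (2 ^ d * (u0 : 𝓞 K) * ∏ i, q i)) a b ↔
          ∃ x ∈ P, TorsionPair (algebraMap (𝓞 K) K (2 ^ d * (u0 : 𝓞 K) * ∏ i, q i))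
            (a * x.1) (b * x.2))) := by
  have hd' : d = 0 ∨ d = 1 := by omega
  have hfour : ∀ u : (𝓞 K)ˣ, (∃ m : 𝓞 K, (4 : 𝓞 K) ∣ (u : 𝓞 K) - m ^ 2) → IsSquare u :=
    fun u ⟨m, hm⟩ => isSquare_of_sq_mod_four hclass hpos u m hm
  have hq0 : ∀ i, q i ≠ 0 := by
    intro i h0
    have h1 := hq i
    rw [h0, Ideal.span_singleton_eq_bot.mpr rfl] at h1
    exact (pow_ne_zero (m i) (p i).ne_bot) h1.symm
  obtain ⟨n, hndef⟩ : ∃ n, n = algebraMap (𝓞 K) K (2 ^ d * (u0 : 𝓞 K) * ∏ i, q i) := ⟨_, rfl⟩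
  have hn0 : n ≠ 0 := by
    rw [hndef, Ne, map_eq_zero_iff _ (FaithfulSMul.algebraMap_injective (𝓞 K) K)]
    exact mul_ne_zero (mul_ne_zero (pow_ne_zero d two_ne_zero) u0.ne_zero)
      (Finset.prod_ne_zero_iff.mpr fun i _ => hq0 i)
  have hglob : ∀ a b : K, HasPoint n a b → SelmerPair K n a b :=
    fun a b h => ⟨fun v => h.map _, fun f => h.map f⟩
  refine ⟨?_, ?_⟩
  · intro a b ha hb h
    obtain ⟨A, B, u, w, t, hj, _⟩ := selmer_idx hclass h2 p hp hp2 m hm q hq hqpos d hd' u0 c e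
      hne a b ha hb h
    exact ⟨A 0, B 0, u 0, w 0, t 0, (hj 0).1, (hj 0).2⟩
  · intro P hP hPne hcard a b ha hb
    have h1 : SelmerPair K n a b → ∃ x ∈ P, TorsionPair n (a * x.1) (b * x.2) := by
      intro h
      rw [hndef] at h ⊢
      exact uniform hclass hpos hfour h2 p hp hp2 m hm q hq hqpos d hd' u0 c e hne P
        (fun x hx => ⟨(hP x hx).1, (hP x hx).2.1⟩) (fun x hx => (hP x hx).2.2) hPne hcard
        a b ha hb h
    rw [← hndef]
    rw [← hndef] at hP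
    have h3 : (∃ x ∈ P, TorsionPair n (a * x.1) (b * x.2)) → HasPoint n a b := by
      rintro ⟨x, hx, ht⟩
      exact hasPoint_of_equiv hn0 (hP x hx).1 (hP x hx).2.1 (hP x hx).2.2 ht
    exact ⟨⟨fun h => h3 (h1 h), hglob a b⟩, ⟨h1, fun h => hglob a b (h3 h)⟩⟩

end Pool.Agent.MP009fd8W
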